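import Mathlib

set_option autoImplicit false

open Set Metric

namespace Pool.Agent.W790.CHD

/-- `ℝ³` -/
abbrev E3 : Type := EuclideanSpace ℝ (Fin 3)

/-- the defining function of the domain -/
noncomputable def rho (x : E3) : ℝ := x 0 ^ 20 + x 1 ^ 20 + x 2 ^ 20 - 1

/-- the domain -/
def Om : Set E3 := {x | rho x < 0}

theorem contDiff_rho : ContDiff ℝ ((⊤ : ℕ∞) : WithTop ℕ∞) rho := by
  unfold rho
  fun_prop

theorem continuous_rho : Continuous rho := contDiff_rho.continuous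

theorem isOpen_Om : IsOpen Om := isOpen_lt continuous_rho continuous_const

theorem mem_Om_iff (x : E3) : x ∈ Om ↔ x 0 ^ 20 + x 1 ^ 20 + x 2 ^ 20 < 1 := by
  show rho x < 0 ↔ _
  unfold rho
  constructor <;> intro h <;> linarith

theorem sq_lt_of_pow20 {a : ℝ} (h : a ^ 20 < 1) : a ^ 2 < 1 := by
  by_contra hc
  push Not at hc
  have : 1 ≤ (a ^ 2) ^ 10 := one_le_pow₀ hc
  have e : (a ^ 2) ^ 10 = a ^ 20 := by ring
  linarith

theorem coord_sq_lt {x : E3} (hx : x ∈ Om) : x 0 ^ 2 < 1 ∧ x 1 ^ 2 < 1 ∧ x 2 ^ 2 < 1 := by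
  rw [mem_Om_iff] at hx
  have h0 : 0 ≤ x 0 ^ 20 := Even.pow_nonneg (by decide) _
  have h1 : 0 ≤ x 1 ^ 20 := Even.pow_nonneg (by decide) _
  have h2 : 0 ≤ x 2 ^ 20 := Even.pow_nonneg (by decide) _
  exact ⟨sq_lt_of_pow20 (by linarith), sq_lt_of_pow20 (by linarith), sq_lt_of_pow20 (by linarith)⟩

theorem isBounded_Om : Bornology.IsBounded Om := by
  rw [isBounded_iff_forall_norm_le]
  refine ⟨2, fun x hx => ?_⟩
  obtain ⟨h0, h1, h2⟩ := coord_sq_lt hx
  rw [EuclideanSpace.norm_eq]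
  rw [Real.sqrt_le_left (by norm_num)]
  simp only [Fin.sum_univ_three, Real.norm_eq_abs, sq_abs]
  linarith

theorem convexOn_coord (i : Fin 3) : ConvexOn ℝ univ (fun x : E3 => x i ^ 20) := by
  have h := (Even.convexOn_pow (𝕜 := ℝ) (n := 20) (by decide))
  have h2 := h.comp_linearMap ((EuclideanSpace.proj i : E3 →L[ℝ] ℝ) : E3 →ₗ[ℝ] ℝ)
  exact h2

theorem convex_Om : Convex ℝ Om := by
  have h : ConvexOn ℝ univ rho := by
    have h1 := ((convexOn_coord 0).add (convexOn_coord 1)).add (convexOn_coord 2)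
    have h2 := h1.add_const (-1)
    exact h2
  have := h.convex_lt 0
  simpa [Om] using this

theorem zero_mem_Om : (0 : E3) ∈ Om := by
  rw [mem_Om_iff]
  norm_num

theorem frontier_sub {x : E3} (hx : x ∈ frontier Om) : rho x = 0 :=
  frontier_lt_subset_eq continuous_rho continuous_const hx

theorem fderiv_rho_ne {x : E3} (hx : x ∈ frontier Om) : fderiv ℝ rho x ≠ 0 := by
  intro h0
  have hr := frontier_sub hx
  have hS : x 0 ^ 20 + x 1 ^ 20 + x 2 ^ 20 = 1 := by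
    unfold rho at hr; linarith
  have hd : HasFDerivAt rho (0 : E3 →L[ℝ] ℝ) ((1 : ℝ) • x) := by
    rw [one_smul, ← h0]
    exact (contDiff_rho.differentiable (by norm_num)).differentiableAt.hasFDerivAt
  have hl : HasDerivAt (fun t : ℝ => t • x) ((1 : ℝ) • x) 1 := (hasDerivAt_id (1 : ℝ)).smul_const x
  have h1 : HasDerivAt (fun t : ℝ => rho (t • x)) ((0 : E3 →L[ℝ] ℝ) ((1 : ℝ) • x)) 1 :=
    HasFDerivAt.comp_hasDerivAt (f := fun t : ℝ => t • x) (1 : ℝ) hd hl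
  have h2 : (fun t : ℝ => rho (t • x)) = fun t : ℝ => t ^ 20 - 1 := by
    funext t
    unfold rho
    simp only [PiLp.smul_apply, smul_eq_mul, mul_pow]
    have : t ^ 20 * x 0 ^ 20 + t ^ 20 * x 1 ^ 20 + t ^ 20 * x 2 ^ 20
      = t ^ 20 * (x 0 ^ 20 + x 1 ^ 20 + x 2 ^ 20) := by ring
    rw [this, hS, mul_one]
  rw [h2] at h1
  have h3 : HasDerivAt (fun t : ℝ => t ^ 20 - 1) (20 : ℝ) 1 := by
    have := ((hasDerivAt_id (1:ℝ)).pow 20).sub_const 1
    simpa using this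
  have := h1.unique h3
  simp at this

theorem smooth_boundary : ∃ U : Set (EuclideanSpace ℝ (Fin 3)), ∃ ρ : EuclideanSpace ℝ (Fin 3) → ℝ,
        IsOpen U ∧ closure Om ⊆ U ∧ ContDiffOn ℝ ((⊤ : ℕ∞) : WithTop ℕ∞) ρ U ∧
        Om = {x | x ∈ U ∧ ρ x < 0} ∧ ∀ x ∈ frontier Om, fderiv ℝ ρ x ≠ 0 :=
  ⟨univ, rho, isOpen_univ, subset_univ _, contDiff_rho.contDiffOn, by simp [Om],
    fun _ hx => fderiv_rho_ne hx⟩

end Pool.Agent.W790.CHD
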