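import Mathlib
import Pool.Agent.W790.CHD.Domain

set_option autoImplicit false

open Set Metric

namespace Pool.Agent.W790.CHD

/-- first coordinate of the Enneper disc -/
noncomputable def g0 (z : ℂ) : ℝ := (11 / 10) * (z.re - (3 / 16) * (z.re ^ 3 - 3 * z.re * z.im ^ 2))
/-- second coordinate of the Enneper disc -/
noncomputable def g1 (z : ℂ) : ℝ := (11 / 10) * (z.im + (3 / 16) * (3 * z.re ^ 2 * z.im - z.im ^ 3))
/-- third coordinate of the Enneper disc -/
noncomputable def g2 (z : ℂ) : ℝ := (11 / 10) * ((3 / 4) * (z.re ^ 2 - z.im ^ 2))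

/-- the Enneper disc -/
noncomputable def gE (z : ℂ) : E3 := !₂[g0 z, g1 z, g2 z]

theorem contDiff_gE : ContDiff ℝ ((⊤ : ℕ∞) : WithTop ℕ∞) gE := by
  have hre : ContDiff ℝ ((⊤ : ℕ∞) : WithTop ℕ∞) Complex.re := Complex.reCLM.contDiff
  have him : ContDiff ℝ ((⊤ : ℕ∞) : WithTop ℕ∞) Complex.im := Complex.imCLM.contDiff
  rw [contDiff_euclidean]
  intro i
  fin_cases i
  · show ContDiff ℝ _ g0
    unfold g0
    fun_prop
  · show ContDiff ℝ _ g1
    unfold g1
    fun_prop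
  · show ContDiff ℝ _ g2
    unfold g2
    fun_prop

/-- partial derivatives along `1` -/
theorem hasDeriv_one (φ : ℂ → ℝ) (hφ : Differentiable ℝ φ) (z : ℂ) (d : ℝ)
    (h : HasDerivAt (fun t : ℝ => φ ⟨t, z.im⟩) d z.re) : fderiv ℝ φ z 1 = d := by
  have h1 : HasDerivAt (fun t : ℝ => (⟨t, z.im⟩ : ℂ)) 1 z.re := by
    have : (fun t : ℝ => (⟨t, z.im⟩ : ℂ)) = fun t : ℝ => (t : ℂ) + (z.im : ℂ) * Complex.I := by
      funext t
      apply Complex.ext <;> simp
    rw [this]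
    exact (Complex.ofRealCLM.hasDerivAt (x := z.re)).add_const _
  have h2 : HasFDerivAt φ (fderiv ℝ φ z) ((fun t : ℝ => (⟨t, z.im⟩ : ℂ)) z.re) := by
    have : ((fun t : ℝ => (⟨t, z.im⟩ : ℂ)) z.re) = z := by apply Complex.ext <;> simp
    rw [this]
    exact (hφ z).hasFDerivAt
  have h3 := HasFDerivAt.comp_hasDerivAt (f := fun t : ℝ => (⟨t, z.im⟩ : ℂ)) z.re h2 h1
  exact h3.unique h

/-- partial derivatives along `I` -/
theorem hasDeriv_I (φ : ℂ → ℝ) (hφ : Differentiable ℝ φ) (z : ℂ) (d : ℝ)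
    (h : HasDerivAt (fun t : ℝ => φ ⟨z.re, t⟩) d z.im) : fderiv ℝ φ z Complex.I = d := by
  have h1 : HasDerivAt (fun t : ℝ => (⟨z.re, t⟩ : ℂ)) Complex.I z.im := by
    have : (fun t : ℝ => (⟨z.re, t⟩ : ℂ)) = fun t : ℝ => (z.re : ℂ) + (t : ℂ) * Complex.I := by
      funext t
      apply Complex.ext <;> simp
    rw [this]
    have h0 := ((Complex.ofRealCLM.hasDerivAt (x := z.im)).mul_const Complex.I).const_add (z.re : ℂ)
    simpa using h0
  have h2 : HasFDerivAt φ (fderiv ℝ φ z) ((fun t : ℝ => (⟨z.re, t⟩ : ℂ)) z.im) := by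
    have : ((fun t : ℝ => (⟨z.re, t⟩ : ℂ)) z.im) = z := by apply Complex.ext <;> simp
    rw [this]
    exact (hφ z).hasFDerivAt
  have h3 := HasFDerivAt.comp_hasDerivAt (f := fun t : ℝ => (⟨z.re, t⟩ : ℂ)) z.im h2 h1
  exact h3.unique h

theorem diff_re : Differentiable ℝ Complex.re := Complex.reCLM.differentiable
theorem diff_im : Differentiable ℝ Complex.im := Complex.imCLM.differentiable

theorem diff_g0 : Differentiable ℝ g0 := by
  have := diff_re; have := diff_im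
  unfold g0; fun_prop
theorem diff_g1 : Differentiable ℝ g1 := by
  have := diff_re; have := diff_im
  unfold g1; fun_prop
theorem diff_g2 : Differentiable ℝ g2 := by
  have := diff_re; have := diff_im
  unfold g2; fun_prop

theorem g0_x (z : ℂ) : fderiv ℝ g0 z 1 = (11 / 10) * (1 - (9 / 16) * (z.re ^ 2 - z.im ^ 2)) := by
  apply hasDeriv_one _ diff_g0
  unfold g0
  have h : HasDerivAt (fun t : ℝ => t) 1 z.re := hasDerivAt_id _
  refine HasDerivAt.congr_deriv ((h.sub (((h.pow 3).sub ((h.const_mul 3).mul_const (z.im ^ 2))).const_mul (3 / 16))).const_mul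
    (11 / 10)) ?_
  push_cast
  ring

theorem g0_y (z : ℂ) : fderiv ℝ g0 z Complex.I = (11 / 10) * ((9 / 8) * z.re * z.im) := by
  apply hasDeriv_I _ diff_g0
  unfold g0
  have h : HasDerivAt (fun t : ℝ => t) 1 z.im := hasDerivAt_id _
  refine HasDerivAt.congr_deriv (((((h.pow 2).const_mul (3 * z.re)).const_sub (z.re ^ 3)).const_mul (3 / 16)).const_sub
    (z.re) |>.const_mul (11 / 10)) ?_
  push_cast
  ring

theorem g1_x (z : ℂ) : fderiv ℝ g1 z 1 = (11 / 10) * ((9 / 8) * z.re * z.im) := by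
  apply hasDeriv_one _ diff_g1
  unfold g1
  have h : HasDerivAt (fun t : ℝ => t) 1 z.re := hasDerivAt_id _
  refine HasDerivAt.congr_deriv ((((((h.pow 2).const_mul 3).mul_const z.im).sub_const (z.im ^ 3)).const_mul
    (3 / 16)).const_add (z.im) |>.const_mul (11 / 10)) ?_
  push_cast
  ring

theorem g1_y (z : ℂ) : fderiv ℝ g1 z Complex.I =
    (11 / 10) * (1 + (9 / 16) * (z.re ^ 2 - z.im ^ 2)) := by
  apply hasDeriv_I _ diff_g1
  unfold g1
  have h : HasDerivAt (fun t : ℝ => t) 1 z.im := hasDerivAt_id _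
  refine HasDerivAt.congr_deriv ((h.add (((h.const_mul (3 * z.re ^ 2)).sub (h.pow 3)).const_mul (3 / 16))).const_mul
    (11 / 10)) ?_
  push_cast
  ring

theorem g2_x (z : ℂ) : fderiv ℝ g2 z 1 = (11 / 10) * ((3 / 2) * z.re) := by
  apply hasDeriv_one _ diff_g2
  unfold g2
  have h : HasDerivAt (fun t : ℝ => t) 1 z.re := hasDerivAt_id _
  refine HasDerivAt.congr_deriv ((((h.pow 2).sub_const (z.im ^ 2)).const_mul (3 / 4)).const_mul (11 / 10)) ?_
  push_cast
  ring

theorem g2_y (z : ℂ) : fderiv ℝ g2 z Complex.I = (11 / 10) * (-(3 / 2) * z.im) := by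
  apply hasDeriv_I _ diff_g2
  unfold g2
  have h : HasDerivAt (fun t : ℝ => t) 1 z.im := hasDerivAt_id _
  refine HasDerivAt.congr_deriv ((((h.pow 2).const_sub (z.re ^ 2)).const_mul (3 / 4)).const_mul (11 / 10)) ?_
  push_cast
  ring

/-- the coordinates of the derivative -/
theorem fderiv_coord {f : ℂ → E3} {z : ℂ} (hf : DifferentiableAt ℝ f z) (v : ℂ) (i : Fin 3) :
    (fderiv ℝ f z v) i = fderiv ℝ (fun w => f w i) z v := by
  have h := (EuclideanSpace.proj i : E3 →L[ℝ] ℝ).hasFDerivAt.comp z hf.hasFDerivAt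
  have h2 : fderiv ℝ (fun w => f w i) z = (EuclideanSpace.proj i : E3 →L[ℝ] ℝ).comp (fderiv ℝ f z) :=
    h.fderiv
  rw [h2]
  rfl

theorem diff_gE : Differentiable ℝ gE := contDiff_gE.differentiable (by norm_num)

theorem gE_x (z : ℂ) : fderiv ℝ gE z 1 = !₂[(11 / 10) * (1 - (9 / 16) * (z.re ^ 2 - z.im ^ 2)),
    (11 / 10) * ((9 / 8) * z.re * z.im), (11 / 10) * ((3 / 2) * z.re)] := by
  ext i
  rw [fderiv_coord (diff_gE z)]
  fin_cases i
  · exact g0_x z
  · exact g1_x z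
  · exact g2_x z

theorem gE_y (z : ℂ) : fderiv ℝ gE z Complex.I = !₂[(11 / 10) * ((9 / 8) * z.re * z.im),
    (11 / 10) * (1 + (9 / 16) * (z.re ^ 2 - z.im ^ 2)), (11 / 10) * (-(3 / 2) * z.im)] := by
  ext i
  rw [fderiv_coord (diff_gE z)]
  fin_cases i
  · exact g0_y z
  · exact g1_y z
  · exact g2_y z

theorem gE_zero : gE 0 = 0 := by
  ext i
  fin_cases i <;> simp [gE, g0, g1, g2]

theorem gE_conf (z : ℂ) : ‖fderiv ℝ gE z (1 : ℂ)‖ = ‖fderiv ℝ gE z Complex.I‖ ∧
    inner ℝ (fderiv ℝ gE z (1 : ℂ)) (fderiv ℝ gE z Complex.I) = 0 := by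
  rw [gE_x, gE_y]
  constructor
  · rw [EuclideanSpace.norm_eq, EuclideanSpace.norm_eq]
    congr 1
    simp only [Fin.sum_univ_three, Real.norm_eq_abs, sq_abs]
    simp
    ring
  · rw [PiLp.inner_apply]
    simp only [Fin.sum_univ_three]
    simp
    ring

end Pool.Agent.W790.CHD
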