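import Mathlib
import Pool.Agent.W790.CHD.Enneper

set_option autoImplicit false

open Set Metric

namespace Pool.Agent.W790.CHD

theorem coord_fun_deriv_one (F : ℂ → E3) (hF : Differentiable ℝ F) (z : ℂ) (i : Fin 3) (d : ℝ)
    (h : HasDerivAt (fun t : ℝ => F ⟨t, z.im⟩ i) d z.re) : (fderiv ℝ F z 1) i = d := by
  rw [fderiv_coord (hF z)]
  have h2 : Differentiable ℝ (fun w => F w i) :=
    (EuclideanSpace.proj i : E3 →L[ℝ] ℝ).differentiable.comp hF
  exact hasDeriv_one _ h2 z d h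

theorem coord_fun_deriv_I (F : ℂ → E3) (hF : Differentiable ℝ F) (z : ℂ) (i : Fin 3) (d : ℝ)
    (h : HasDerivAt (fun t : ℝ => F ⟨z.re, t⟩ i) d z.im) : (fderiv ℝ F z Complex.I) i = d := by
  rw [fderiv_coord (hF z)]
  have h2 : Differentiable ℝ (fun w => F w i) :=
    (EuclideanSpace.proj i : E3 →L[ℝ] ℝ).differentiable.comp hF
  exact hasDeriv_I _ h2 z d h

theorem diff_gEx : Differentiable ℝ (fun w => fderiv ℝ gE w (1 : ℂ)) := by
  have h : ContDiff ℝ 1 (fun w => fderiv ℝ gE w) := contDiff_gE.fderiv_right (by norm_cast)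
  exact (h.clm_apply contDiff_const).differentiable (by norm_num)

theorem diff_gEy : Differentiable ℝ (fun w => fderiv ℝ gE w Complex.I) := by
  have h : ContDiff ℝ 1 (fun w => fderiv ℝ gE w) := contDiff_gE.fderiv_right (by norm_cast)
  exact (h.clm_apply contDiff_const).differentiable (by norm_num)

theorem gE_xx (z : ℂ) : fderiv ℝ (fun w => fderiv ℝ gE w (1 : ℂ)) z 1 =
    !₂[(11 / 10) * (-(9 / 8) * z.re), (11 / 10) * ((9 / 8) * z.im), (11 / 10) * (3 / 2)] := by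
  have h : HasDerivAt (fun t : ℝ => t) 1 z.re := hasDerivAt_id _
  ext i
  fin_cases i
  · apply coord_fun_deriv_one _ diff_gEx
    simp only [gE_x]
    refine HasDerivAt.congr_deriv (((((h.pow 2).sub_const (z.im ^ 2)).const_mul (9 / 16)).const_sub
      1).const_mul (11 / 10)) ?_
    push_cast
    ring
  · apply coord_fun_deriv_one _ diff_gEx
    simp only [gE_x]
    refine HasDerivAt.congr_deriv (((h.const_mul (9 / 8)).mul_const z.im).const_mul (11 / 10)) ?_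
    change _ = (11 / 10 : ℝ) * ((9 / 8) * z.im)
    ring
  · apply coord_fun_deriv_one _ diff_gEx
    simp only [gE_x]
    refine HasDerivAt.congr_deriv ((h.const_mul (3 / 2)).const_mul (11 / 10)) ?_
    change _ = (11 / 10 : ℝ) * (3 / 2)
    ring

theorem gE_yy (z : ℂ) : fderiv ℝ (fun w => fderiv ℝ gE w Complex.I) z Complex.I =
    !₂[(11 / 10) * ((9 / 8) * z.re), (11 / 10) * (-(9 / 8) * z.im), (11 / 10) * (-(3 / 2))] := by
  have h : HasDerivAt (fun t : ℝ => t) 1 z.im := hasDerivAt_id _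
  ext i
  fin_cases i
  · apply coord_fun_deriv_I _ diff_gEy
    simp only [gE_y]
    refine HasDerivAt.congr_deriv ((h.const_mul (9 / 8 * z.re)).const_mul (11 / 10)) ?_
    change _ = (11 / 10 : ℝ) * ((9 / 8) * z.re)
    ring
  · apply coord_fun_deriv_I _ diff_gEy
    simp only [gE_y]
    refine HasDerivAt.congr_deriv (((((h.pow 2).const_sub (z.re ^ 2)).const_mul (9 / 16)).const_add
      1).const_mul (11 / 10)) ?_
    push_cast
    ring
  · apply coord_fun_deriv_I _ diff_gEy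
    simp only [gE_y]
    refine HasDerivAt.congr_deriv ((h.const_mul (-(3 / 2))).const_mul (11 / 10)) ?_
    change _ = (11 / 10 : ℝ) * (-(3 / 2))
    ring

theorem gE_harm (z : ℂ) : fderiv ℝ (fun w => fderiv ℝ gE w (1 : ℂ)) z (1 : ℂ) +
    fderiv ℝ (fun w => fderiv ℝ gE w Complex.I) z Complex.I = 0 := by
  rw [gE_xx, gE_yy]
  ext i
  fin_cases i <;> simp

/-- the one variable inequality -/
theorem phi_le {x y : ℝ} (hx : 0 ≤ x) (h : x ^ 2 + y ^ 2 ≤ 1) :
    x - (3 / 16) * (x ^ 3 - 3 * x * y ^ 2) ≤ 125 / 144 := by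
  have h1 : x * y ^ 2 ≤ x * (1 - x ^ 2) := mul_le_mul_of_nonneg_left (by linarith) hx
  have h2 : 0 ≤ (x - 5 / 6) ^ 2 * (x + 5 / 3) := by positivity
  nlinarith [h1, h2]

theorem phi_ge {x y : ℝ} (hx : 0 ≤ x) (h : x ^ 2 + y ^ 2 ≤ 1) :
    0 ≤ x - (3 / 16) * (x ^ 3 - 3 * x * y ^ 2) := by
  have h3 : x ^ 2 ≤ 1 := by nlinarith [sq_nonneg y]
  have h1 : 0 ≤ x * y ^ 2 := by positivity
  have h2 : x ^ 3 ≤ x := by nlinarith
  nlinarith

theorem phi_abs (x y : ℝ) (h : x ^ 2 + y ^ 2 ≤ 1) :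
    |x - (3 / 16) * (x ^ 3 - 3 * x * y ^ 2)| ≤ 125 / 144 := by
  rcases le_total 0 x with hx | hx
  · rw [abs_of_nonneg (phi_ge hx h)]
    exact phi_le hx h
  · have hx' : 0 ≤ -x := by linarith
    have h' : (-x) ^ 2 + y ^ 2 ≤ 1 := by rw [neg_sq]; exact h
    have e : x - (3 / 16) * (x ^ 3 - 3 * x * y ^ 2)
      = -((-x) - (3 / 16) * ((-x) ^ 3 - 3 * (-x) * y ^ 2)) := by ring
    rw [e, abs_neg, abs_of_nonneg (phi_ge hx' h')]
    exact phi_le hx' h'

theorem gE_mem {z : ℂ} (hz : z ∈ ball (0 : ℂ) 1) : gE z ∈ Om := by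
  rw [mem_ball_zero_iff] at hz
  have h : z.re ^ 2 + z.im ^ 2 ≤ 1 := by
    have h1 : ‖z‖ ^ 2 = z.re ^ 2 + z.im ^ 2 := by
      rw [Complex.sq_norm, Complex.normSq_apply]; ring
    rw [← h1]
    nlinarith [norm_nonneg z]
  have h0 : |g0 z| ≤ 11 / 10 * (125 / 144) := by
    unfold g0
    rw [abs_mul, abs_of_pos (by norm_num : (0:ℝ) < 11 / 10)]
    exact mul_le_mul_of_nonneg_left (phi_abs _ _ h) (by norm_num)
  have h1 : |g1 z| ≤ 11 / 10 * (125 / 144) := by
    unfold g1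
    rw [abs_mul, abs_of_pos (by norm_num : (0:ℝ) < 11 / 10)]
    have e : z.im + (3 / 16) * (3 * z.re ^ 2 * z.im - z.im ^ 3)
      = z.im - (3 / 16) * (z.im ^ 3 - 3 * z.im * z.re ^ 2) := by ring
    rw [e]
    exact mul_le_mul_of_nonneg_left (phi_abs _ _ (by linarith)) (by norm_num)
  have h2 : |g2 z| ≤ 33 / 40 := by
    unfold g2
    rw [abs_mul, abs_of_pos (by norm_num : (0:ℝ) < 11 / 10), abs_mul,
      abs_of_pos (by norm_num : (0:ℝ) < 3 / 4)]
    have : |z.re ^ 2 - z.im ^ 2| ≤ 1 := by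
      rw [abs_le]
      constructor <;> nlinarith [sq_nonneg z.re, sq_nonneg z.im]
    linarith
  rw [mem_Om_iff]
  show g0 z ^ 20 + g1 z ^ 20 + g2 z ^ 20 < 1
  have p0 : g0 z ^ 20 ≤ (11 / 10 * (125 / 144)) ^ 20 := by
    rw [← Even.pow_abs (by decide : Even 20) (g0 z)]
    exact pow_le_pow_left₀ (abs_nonneg _) h0 20
  have p1 : g1 z ^ 20 ≤ (11 / 10 * (125 / 144)) ^ 20 := by
    rw [← Even.pow_abs (by decide : Even 20) (g1 z)]
    exact pow_le_pow_left₀ (abs_nonneg _) h1 20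
  have p2 : g2 z ^ 20 ≤ (33 / 40) ^ 20 := by
    rw [← Even.pow_abs (by decide : Even 20) (g2 z)]
    exact pow_le_pow_left₀ (abs_nonneg _) h2 20
  have : (11 / 10 * (125 / 144) : ℝ) ^ 20 + (11 / 10 * (125 / 144)) ^ 20 + (33 / 40) ^ 20 < 1 := by
    norm_num
  linarith

end Pool.Agent.W790.CHD
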