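import Mathlib
import Pool.Agent.W790.CHD.Enneper

set_option autoImplicit false

open Set Metric Complex InnerProductSpace Topology Filter

namespace Pool.Agent.W790.CHD

theorem poly_ineq {S P : ℝ} (hS : 0 ≤ S) (hS2 : S ≤ 2) (hP : 0 ≤ P) (hP1 : S - 1 ≤ P) :
    S * (1 + 2 * (2 / 25) * (S ^ 2 - 8 * P) + (2 / 25) ^ 2 * S ^ 4) ≤ (219 / 200) ^ 2 := by
  rcases le_total S 1 with h1 | h1
  · have a1 : S ^ 2 ≤ 1 := by nlinarith
    have a2 : S ^ 4 ≤ 1 := by nlinarith
    have a3 : (1 + 2 * (2 / 25) * (S ^ 2 - 8 * P) + (2 / 25) ^ 2 * S ^ 4) ≤ (27 / 25) ^ 2 := by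
      nlinarith
    have a4 : S * (1 + 2 * (2 / 25) * (S ^ 2 - 8 * P) + (2 / 25) ^ 2 * S ^ 4) ≤
        S * (27 / 25) ^ 2 := mul_le_mul_of_nonneg_left a3 hS
    nlinarith
  · have b1 : S * (1 + 2 * (2 / 25) * (S ^ 2 - 8 * P) + (2 / 25) ^ 2 * S ^ 4) ≤
        S * (1 + 2 * (2 / 25) * (S ^ 2 - 8 * (S - 1)) + (2 / 25) ^ 2 * S ^ 4) := by
      apply mul_le_mul_of_nonneg_left _ hS
      nlinarith
    refine b1.trans ?_
    obtain ⟨T, rfl⟩ : ∃ T, S = 1 + T := ⟨S - 1, by ring⟩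
    have hT0 : 0 ≤ T := by linarith
    have hT1 : T ≤ 1 := by linarith
    have c1 : 0 ≤ T ^ 2 * (1 - T) := by
      apply mul_nonneg (by positivity); linarith
    have c2 : 0 ≤ T ^ 3 * (1 - T) := by
      apply mul_nonneg (by positivity); linarith
    have c3 : 0 ≤ T ^ 4 * (1 - T) := by
      apply mul_nonneg (by positivity); linarith
    nlinarith [sq_nonneg (T - 49 / 200)]

theorem G_bound {w : ℂ} (hx : w.re ^ 2 ≤ 1) (hy : w.im ^ 2 ≤ 1) :
    ‖w + (2 / 25 : ℂ) * w ^ 5‖ ≤ 219 / 200 := by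
  have e : w + (2 / 25 : ℂ) * w ^ 5 = w * (1 + (2 / 25 : ℂ) * w ^ 4) := by ring
  have h4 : w ^ 4 = ⟨(w.re ^ 2 + w.im ^ 2) ^ 2 - 8 * (w.re ^ 2 * w.im ^ 2),
      4 * w.re * w.im * (w.re ^ 2 - w.im ^ 2)⟩ := by
    apply Complex.ext <;> simp [pow_succ] <;> ring
  have h5 : normSq (w + (2 / 25 : ℂ) * w ^ 5) = (w.re ^ 2 + w.im ^ 2) *
      (1 + 2 * (2 / 25) * ((w.re ^ 2 + w.im ^ 2) ^ 2 - 8 * (w.re ^ 2 * w.im ^ 2)) +
        (2 / 25) ^ 2 * (w.re ^ 2 + w.im ^ 2) ^ 4) := by
    rw [e, normSq_mul, h4]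
    have h6 : (2 / 25 : ℂ) = ((2 / 25 : ℝ) : ℂ) := by push_cast; ring
    rw [h6, normSq_apply, normSq_apply]
    simp only [add_re, one_re, mul_re, ofReal_re, ofReal_im, add_im, one_im, mul_im, zero_mul,
      sub_zero, zero_add, add_zero]
    ring
  have h7 : ‖w + (2 / 25 : ℂ) * w ^ 5‖ ^ 2 ≤ (219 / 200) ^ 2 := by
    rw [Complex.sq_norm, h5]
    apply poly_ineq (by positivity) (by linarith) (by positivity)
    nlinarith
  exact le_of_sq_le_sq h7 (by norm_num)

/-- the coordinates of a harmonic map are harmonic functions -/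
theorem comp_harmonic {f : ℂ → E3} (hC : ContDiffOn ℝ 2 f (ball (0 : ℂ) 1))
    (hL : ∀ z ∈ ball (0 : ℂ) 1, fderiv ℝ (fun w => fderiv ℝ f w (1 : ℂ)) z (1 : ℂ) +
      fderiv ℝ (fun w => fderiv ℝ f w Complex.I) z Complex.I = 0) (i : Fin 3) {z : ℂ}
    (hz : z ∈ ball (0 : ℂ) 1) : HarmonicAt (fun w => f w i) z := by
  have hCat : ∀ w ∈ ball (0 : ℂ) 1, ContDiffAt ℝ 2 f w := fun w hw =>
    hC.contDiffAt (isOpen_ball.mem_nhds hw)
  have hφ : ∀ w ∈ ball (0 : ℂ) 1, ContDiffAt ℝ 2 (fun w => f w i) w := fun w hw =>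
    (EuclideanSpace.proj i : E3 →L[ℝ] ℝ).contDiff.contDiffAt.comp w (hCat w hw)
  refine ⟨hφ z hz, ?_⟩
  filter_upwards [isOpen_ball.mem_nhds hz] with w hw
  have key : ∀ v : ℂ, fderiv ℝ (fderiv ℝ (fun w => f w i)) w v v =
      (fderiv ℝ (fun w' => fderiv ℝ f w' v) w v) i := by
    intro v
    have d1 : DifferentiableAt ℝ (fun w' => fderiv ℝ f w') w :=
      ((hCat w hw).fderiv_right (m := 1) (by norm_num)).differentiableAt (by norm_num)
    have d2 : DifferentiableAt ℝ (fun w' => fderiv ℝ (fun w => f w i) w') w :=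
      ((hφ w hw).fderiv_right (m := 1) (by norm_num)).differentiableAt (by norm_num)
    have e1 : fderiv ℝ (fun w' => fderiv ℝ (fun w => f w i) w' v) w v =
        fderiv ℝ (fderiv ℝ (fun w => f w i)) w v v := by
      rw [fderiv_clm_apply d2 (differentiableAt_const v)]
      simp
    have d3 : DifferentiableAt ℝ (fun w' => fderiv ℝ f w' v) w :=
      d1.clm_apply (differentiableAt_const v)
    rw [← e1, fderiv_coord d3]
    have e2 : (fun w' => fderiv ℝ (fun w => f w i) w' v) =ᶠ[𝓝 w] fun w' => (fderiv ℝ f w' v) i := by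
      filter_upwards [isOpen_ball.mem_nhds hw] with w' hw'
      exact (fderiv_coord ((hCat w' hw').differentiableAt (by norm_num)) v i).symm
    rw [e2.fderiv_eq]
  simp only [laplacian_eq_iteratedFDeriv_complexPlane, iteratedFDeriv_two_apply,
    Matrix.cons_val_zero, Matrix.cons_val_one, Pi.zero_apply]
  rw [key 1, key I]
  have := congrArg (fun x : E3 => x i) (hL w hw)
  simpa using this

/-- the standard basis vectors -/
noncomputable def e0 : E3 := EuclideanSpace.single 0 1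
noncomputable def e1 : E3 := EuclideanSpace.single 1 1

theorem planar_bound {f : ℂ → E3} {r : ℝ} (hr : 0 < r)
    (hC : ContDiffOn ℝ 2 f (ball (0 : ℂ) 1))
    (hm : ∀ z ∈ ball (0 : ℂ) 1, f z ∈ Om)
    (hconf : ∀ z ∈ ball (0 : ℂ) 1, ‖fderiv ℝ f z (1 : ℂ)‖ = ‖fderiv ℝ f z Complex.I‖ ∧
      inner ℝ (fderiv ℝ f z (1 : ℂ)) (fderiv ℝ f z Complex.I) = 0)
    (hL : ∀ z ∈ ball (0 : ℂ) 1, fderiv ℝ (fun w => fderiv ℝ f w (1 : ℂ)) z (1 : ℂ) +
      fderiv ℝ (fun w => fderiv ℝ f w Complex.I) z Complex.I = 0)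
    (h2 : ∀ z ∈ ball (0 : ℂ) 1, f z 2 = 0) (h0 : f 0 = 0)
    (hx : fderiv ℝ f 0 (1 : ℂ) = r • e0) (hy : fderiv ℝ f 0 Complex.I = r • e1) :
    r ≤ 219 / 200 := by
  have hball : (0 : ℂ) ∈ ball (0 : ℂ) 1 := mem_ball_self one_pos
  have hdf : ∀ z ∈ ball (0 : ℂ) 1, DifferentiableAt ℝ f z := fun z hz =>
    (hC.contDiffAt (isOpen_ball.mem_nhds hz)).differentiableAt (by norm_num)
  -- third coordinate of the derivative vanishes
  have h2d : ∀ z ∈ ball (0 : ℂ) 1, ∀ v : ℂ, (fderiv ℝ f z v) 2 = 0 := by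
    intro z hz v
    rw [fderiv_coord (hdf z hz)]
    have : (fun w => f w 2) =ᶠ[𝓝 z] fun _ => (0 : ℝ) := by
      filter_upwards [isOpen_ball.mem_nhds hz] with w hw using h2 w hw
    rw [this.fderiv_eq]
    simp
  -- the holomorphic derivatives
  set a : ℂ → ℂ := fun z => fderiv ℝ (fun w => f w 0) z 1 - I * fderiv ℝ (fun w => f w 0) z I with ha
  set b : ℂ → ℂ := fun z => fderiv ℝ (fun w => f w 1) z 1 - I * fderiv ℝ (fun w => f w 1) z I with hb
  have haA : AnalyticOnNhd ℂ a (ball 0 1) := fun z hz =>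
    HarmonicAt.analyticAt_complex_partial (comp_harmonic hC hL 0 hz)
  have hbA : AnalyticOnNhd ℂ b (ball 0 1) := fun z hz =>
    HarmonicAt.analyticAt_complex_partial (comp_harmonic hC hL 1 hz)
  have hprod : ∀ z ∈ ball (0 : ℂ) 1, (a z + I * b z) * (a z - I * b z) = 0 := by
    intro z hz
    obtain ⟨c1, c2⟩ := hconf z hz
    have c1' : ‖fderiv ℝ f z (1 : ℂ)‖ ^ 2 = ‖fderiv ℝ f z Complex.I‖ ^ 2 := by rw [c1]
    rw [EuclideanSpace.norm_sq_eq, EuclideanSpace.norm_sq_eq] at c1'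
    rw [PiLp.inner_apply] at c2
    simp only [Fin.sum_univ_three, h2d z hz, Real.norm_eq_abs, sq_abs] at c1' c2
    rw [fderiv_coord (hdf z hz), fderiv_coord (hdf z hz), fderiv_coord (hdf z hz),
      fderiv_coord (hdf z hz)] at c1' c2
    simp only [RCLike.inner_apply, conj_trivial] at c2
    have e : (a z + I * b z) * (a z - I * b z) = a z ^ 2 + b z ^ 2 := by
      ring_nf
      rw [I_sq]; ring
    rw [e, ha, hb]
    simp only
    set p := fderiv ℝ (fun w => f w 0) z 1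
    set q := fderiv ℝ (fun w => f w 0) z I
    set s := fderiv ℝ (fun w => f w 1) z 1
    set t := fderiv ℝ (fun w => f w 1) z I
    apply Complex.ext
    · simp [pow_two]
      nlinarith
    · simp [pow_two]
      nlinarith
  have hpre : IsPreconnected (ball (0 : ℂ) 1) := (convex_ball (0:ℂ) 1).isPreconnected
  have hor := AnalyticOnNhd.eq_zero_or_eq_zero_of_mul_eq_zero
    (f := fun z => a z + I * b z) (g := fun z => a z - I * b z) (U := ball (0:ℂ) 1)
    (fun z hz => (haA z hz).add (analyticAt_const.mul (hbA z hz)))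
    (fun z hz => (haA z hz).sub (analyticAt_const.mul (hbA z hz))) hprod hpre
  -- values at zero
  have hp0 : fderiv ℝ (fun w => f w 0) 0 1 = r := by
    rw [← fderiv_coord (hdf 0 hball), hx]; simp [e0]
  have hq0 : fderiv ℝ (fun w => f w 0) 0 I = 0 := by
    rw [← fderiv_coord (hdf 0 hball), hy]; simp [e1]
  have hs0 : fderiv ℝ (fun w => f w 1) 0 1 = 0 := by
    rw [← fderiv_coord (hdf 0 hball), hx]; simp [e0]
  have ht0 : fderiv ℝ (fun w => f w 1) 0 I = r := by
    rw [← fderiv_coord (hdf 0 hball), hy]; simp [e1]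
  have hab : ∀ z ∈ ball (0 : ℂ) 1, a z - I * b z = 0 := by
    rcases hor with h | h
    · exfalso
      have := h 0 hball
      simp only [ha, hb, hp0, hq0, hs0, ht0] at this
      have h3 : (2 * r : ℂ) = 0 := by
        have e : ((r : ℂ) - I * ((0:ℝ):ℂ) + I * (((0:ℝ):ℂ) - I * (r : ℂ))) = 2 * r := by
          push_cast
          ring_nf
          rw [I_sq]; ring
        rw [← e]; exact this
      have h4 : (r : ℂ) = 0 := by simpa using h3
      exact hr.ne' (by exact_mod_cast h4)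
    · exact h
  -- the complex map
  set F : ℂ → ℂ := fun z => (f z 0 : ℂ) + I * (f z 1 : ℂ) with hF
  have hFd : ∀ z ∈ ball (0 : ℂ) 1, HasFDerivAt F (ofRealCLM.comp (fderiv ℝ (fun w => f w 0) z) +
      I • ofRealCLM.comp (fderiv ℝ (fun w => f w 1) z)) z := by
    intro z hz
    have d0 : HasFDerivAt (fun w => f w 0) (fderiv ℝ (fun w => f w 0) z) z :=
      (((EuclideanSpace.proj 0 : E3 →L[ℝ] ℝ).differentiableAt).comp z (hdf z hz)).hasFDerivAt
    have d1 : HasFDerivAt (fun w => f w 1) (fderiv ℝ (fun w => f w 1) z) z :=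
      (((EuclideanSpace.proj 1 : E3 →L[ℝ] ℝ).differentiableAt).comp z (hdf z hz)).hasFDerivAt
    have e0 := ofRealCLM.hasFDerivAt.comp z d0
    have e1 := (ofRealCLM.hasFDerivAt.comp z d1).const_smul I
    exact e0.add e1
  have hFhol : ∀ z ∈ ball (0 : ℂ) 1, DifferentiableAt ℂ F z := by
    intro z hz
    rw [differentiableAt_complex_iff_differentiableAt_real]
    refine ⟨(hFd z hz).differentiableAt, ?_⟩
    rw [(hFd z hz).fderiv]
    have h3 := hab z hz
    simp only [ha, hb] at h3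
    simp only [_root_.add_apply, _root_.smul_apply,
      ContinuousLinearMap.comp_apply, ofRealCLM_apply, smul_eq_mul]
    set p := fderiv ℝ (fun w => f w 0) z 1
    set q := fderiv ℝ (fun w => f w 0) z I
    set s := fderiv ℝ (fun w => f w 1) z 1
    set t := fderiv ℝ (fun w => f w 1) z I
    have h4 := congrArg Complex.re h3
    have h5 := congrArg Complex.im h3
    simp at h4 h5
    apply Complex.ext
    · simp
      linarith
    · simp
      linarith
  have hF0 : F 0 = 0 := by simp [hF, h0]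
  have hF' : deriv F 0 = r := by
    have h6 := (hFhol 0 hball).hasDerivAt
    have h7 : fderiv ℝ F 0 1 = deriv F 0 := by
      have := (h6.hasFDerivAt.restrictScalars ℝ).fderiv
      rw [this]
      simp
    rw [← h7, (hFd 0 hball).fderiv]
    simp only [_root_.add_apply, _root_.smul_apply,
      ContinuousLinearMap.comp_apply, ofRealCLM_apply, smul_eq_mul, hp0, hs0]
    simp
  -- composition with the polynomial
  have hG : DifferentiableOn ℂ (fun z => F z + (2 / 25 : ℂ) * F z ^ 5) (ball 0 1) := by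
    intro z hz
    exact ((hFhol z hz).add (((hFhol z hz).pow 5).const_mul _)).differentiableWithinAt
  have hmaps : MapsTo (fun z => F z + (2 / 25 : ℂ) * F z ^ 5) (ball 0 1)
      (closedBall ((fun z => F z + (2 / 25 : ℂ) * F z ^ 5) 0) (219 / 200)) := by
    intro z hz
    have e : (fun z => F z + (2 / 25 : ℂ) * F z ^ 5) 0 = 0 := by simp [hF0]
    rw [e, mem_closedBall_zero_iff]
    obtain ⟨k0, k1, _⟩ := coord_sq_lt (hm z hz)
    apply G_bound
    · simp only [hF]; simp; exact ((sq_lt_one_iff_abs_lt_one _).mp k0).le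
    · simp only [hF]; simp; exact ((sq_lt_one_iff_abs_lt_one _).mp k1).le
  have hS := Complex.norm_deriv_le_div_of_mapsTo_ball hG hmaps one_pos
  have hGd : deriv (fun z => F z + (2 / 25 : ℂ) * F z ^ 5) 0 = r := by
    have h6 := (hFhol 0 hball).hasDerivAt
    have h7 := h6.add ((h6.pow 5).const_mul (2 / 25 : ℂ))
    have h8 := h7.deriv
    have e : deriv (fun z => F z + (2 / 25 : ℂ) * F z ^ 5) 0 = deriv F 0 +
      2 / 25 * (((5 : ℕ) : ℂ) * F 0 ^ (5 - 1) * deriv F 0) := h8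
    rw [e, hF0, hF']
    simp
  rw [hGd, div_one] at hS
  rw [Complex.norm_real, Real.norm_eq_abs, abs_of_pos hr] at hS
  exact hS

end Pool.Agent.W790.CHD
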