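import Mathlib
import Pool.Agent.W790.CHD.Enneper

set_option autoImplicit false

open Set Metric

namespace Pool.Agent.W790.CHD

/-- the reflection in the third coordinate -/
noncomputable def T : E3 ≃ₗᵢ[ℝ] E3 :=
  LinearIsometryEquiv.piLpCongrRight 2
    (fun i : Fin 3 => if i = 2 then LinearIsometryEquiv.neg ℝ else LinearIsometryEquiv.refl ℝ ℝ)

theorem T_apply (x : E3) (i : Fin 3) : T x i = if i = 2 then - x i else x i := by
  unfold T
  rw [LinearIsometryEquiv.piLpCongrRight_apply]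
  simp only [PiLp.toLp_apply]
  split_ifs <;> simp

theorem T_mem {x : E3} (hx : x ∈ Om) : T x ∈ Om := by
  rw [mem_Om_iff] at hx ⊢
  rw [T_apply, T_apply, T_apply]
  simp only [Fin.isValue, Fin.reduceEq, if_false, if_true]
  rw [Even.neg_pow (by decide)]
  exact hx

/-- the four conditions of a conformal harmonic disc in `Om` -/
def CH (f : ℂ → E3) : Prop :=
  ContDiffOn ℝ 2 f (Metric.ball (0 : ℂ) 1) ∧
            (∀ z ∈ Metric.ball (0 : ℂ) 1, f z ∈ Om) ∧
            (∀ z ∈ Metric.ball (0 : ℂ) 1,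
              ‖fderiv ℝ f z (1 : ℂ)‖ = ‖fderiv ℝ f z Complex.I‖ ∧
              inner ℝ (fderiv ℝ f z (1 : ℂ)) (fderiv ℝ f z Complex.I) = 0) ∧
            (∀ z ∈ Metric.ball (0 : ℂ) 1,
              fderiv ℝ (fun w => fderiv ℝ f w (1 : ℂ)) z (1 : ℂ) +
                fderiv ℝ (fun w => fderiv ℝ f w Complex.I) z Complex.I = 0)

theorem fderiv_T (f : ℂ → E3) (z v : ℂ) : fderiv ℝ (fun w => T (f w)) z v = T (fderiv ℝ f z v) := by
  have h := T.comp_fderiv (f := f) (x := z)
  have e : (fun w => T (f w)) = T ∘ f := rfl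
  rw [e, h]
  rfl

theorem CH_T {f : ℂ → E3} (hf : CH f) : CH (fun w => T (f w)) := by
  obtain ⟨h1, h2, h3, h4⟩ := hf
  refine ⟨T.contDiff.comp_contDiffOn h1, fun z hz => T_mem (h2 z hz), ?_, ?_⟩
  · intro z hz
    rw [fderiv_T, fderiv_T, T.norm_map, T.norm_map, T.inner_map_map]
    exact h3 z hz
  · intro z hz
    have e1 : (fun w => fderiv ℝ (fun w => T (f w)) w (1 : ℂ)) =
      fun w => T ((fun w => fderiv ℝ f w (1 : ℂ)) w) := by
      funext w; exact fderiv_T f w 1
    have e2 : (fun w => fderiv ℝ (fun w => T (f w)) w Complex.I) =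
      fun w => T ((fun w => fderiv ℝ f w Complex.I) w) := by
      funext w; exact fderiv_T f w Complex.I
    rw [e1, e2, fderiv_T, fderiv_T, ← map_add, h4 z hz, map_zero]

end Pool.Agent.W790.CHD
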